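import Pool.Agent.H33.G.R_seed8.H307R2.OP.DefsB

set_option autoImplicit false

/-!
# Odd values of the partition function: statements of the tasks of the analytic part
-/

namespace Pool.Agent.H307R2.OP

open Finset

/-- task QR -/
structure QRStmt : Prop where
  val : ∀ q δ : ℕ, J q δ = -1 ∨ J q δ = 0 ∨ J q δ = 1
  kill : ∀ r δ N q : ℕ, Adm δ → q.Prime → 5 ≤ q → J q δ = -1 → q ∣ N → ¬ q ^ 2 ∣ N → ¬ Rep r δ N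
  om_card : ∀ r δ s q : ℕ, Adm δ → q.Prime → 5 ≤ q → ¬ q ∣ s → ((Om r δ s q).card : ℝ) = 1 + J q δ
  om_zero : ∀ r δ s q : ℕ, Adm δ → q.Prime → 5 ≤ q → q ∣ s → Om r δ s q = {0}

/-- task BAD, general form -/
def BadCount : Prop := ∀ (Y Δ m : ℕ) (τ : ℝ) (P B : Finset ℕ), 2 ≤ Y → 1 ≤ m →
  Δ ^ 3 ≤ (2 * Y) ^ m → 0 < τ → (∀ p ∈ P, p.Prime ∧ Y < p ∧ p ≤ 2 * Y) →
  (∀ δ ∈ B, Squarefree δ ∧ δ % 2 = 1 ∧ δ ≤ Δ ∧ τ < |∑ p ∈ P, J p δ / p|) →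
  (B.card : ℝ) ≤ 2 * (2 * m / τ ^ 2) ^ m

open Classical in
/-- task BAD, the form that is used -/
def BadAtCount : Prop := ∀ I i Δ m : ℕ, 1 ≤ I → 1 ≤ i → 1 ≤ m → Δ ^ 3 ≤ 2 ^ ((i + 1) * m) →
  (((Icc 1 Δ).filter (fun δ => Adm δ ∧ BadAt I i δ)).card : ℝ) ≤ 16 * (2 * m * (I : ℝ) ^ 4) ^ m

/-- task BT4: Brun-Titchmarsh with a good constant -/
def BT4 : Prop := ∃ N0 : ℕ, ∀ a q N : ℕ, 1 ≤ q → N0 ≤ N →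
  (((range N).filter (fun k => (a + k * q).Prime)).card : ℝ) ≤
    9 / 2 * ((q : ℝ) / Nat.totient q) * (N / Real.log N)

/-- task PC -/
structure PCStmt : Prop where
  low : ∃ x0 : ℕ, ∀ x : ℕ, x0 ≤ x → ∀ c : ℕ, c = 3 ∨ c = 5 →
    (x : ℝ) / (5 * Real.log x) ≤ (((Icc 1 x).filter (fun p => p.Prime ∧ p % 8 = c)).card : ℝ)
  block : ∃ i0 : ℕ, ∀ i : ℕ, i0 ≤ i →
    0.99 * (2 : ℝ) ^ i / (4 * i * Real.log 2) ≤ ((PB i 5).card : ℝ)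
  mass : ∃ i0 : ℕ, ∀ i : ℕ, i0 ≤ i → 1 / (6 * (i : ℝ)) ≤ ∑ p ∈ PB i 5, (1 : ℝ) / p
  up : ∃ C : ℝ, 0 < C ∧ ∀ x : ℕ, 2 ≤ x →
    (((Icc 1 x).filter Nat.Prime).card : ℝ) ≤ C * x / Real.log x

/-- task STR: at most two strongly biased kernels -/
def StrongStmt : Prop := ∃ C : ℕ, ∀ i Δ δ1 δ2 δ3 : ℕ, C ≤ i → Δ ^ C ≤ 2 ^ i →
  Adm δ1 → Adm δ2 → Adm δ3 → δ1 ≤ Δ → δ2 ≤ Δ → δ3 ≤ Δ → δ1 ≠ δ2 → δ1 ≠ δ3 → δ2 ≠ δ3 →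
  StrongAt i δ1 → StrongAt i δ2 → StrongAt i δ3 → False

/-- task KP: a small killing prime -/
def KillPrime : Prop := ∃ C : ℕ, ∀ δ : ℕ, Adm δ → ∃ q : ℕ, q.Prime ∧ 5 ≤ q ∧
  (q % 8 = 3 ∨ q % 8 = 5) ∧ J q δ = -1 ∧ q ≤ C * δ ^ C

/-- task ES: elementary symmetric sums -/
structure ESStmt : Prop where
  up : ∀ (B : Finset ℕ) (x : ℕ → ℝ) (k : ℕ), (∀ q ∈ B, 0 ≤ x q) →
    ∑ A ∈ powersetCard k B, ∏ q ∈ A, x q ≤ (∑ q ∈ B, x q) ^ k / (k.factorial : ℝ)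
  low : ∀ (B : Finset ℕ) (x : ℕ → ℝ) (k : ℕ) (τ : ℝ), 0 ≤ τ → (∀ q ∈ B, 0 ≤ x q ∧ x q ≤ τ) →
    k * τ ≤ ∑ q ∈ B, x q →
    (∑ q ∈ B, x q - k * τ) ^ k / (k.factorial : ℝ) ≤ ∑ A ∈ powersetCard k B, ∏ q ∈ A, x q
  fam : ∀ (M : ℕ) (B : Fin M → Finset ℕ) (k : Fin M → ℕ) (x : ℕ → ℝ),
    ∑ A ∈ Fintype.piFinset (fun j => powersetCard (k j) (B j)), ∏ j, ∏ q ∈ A j, x q =
      ∏ j, ∑ A ∈ powersetCard (k j) (B j), ∏ q ∈ A, x q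

/-- task SV: Selberg's sieve for at most two residue classes modulo primes of a large range -/
def SVStmt : Prop := ∀ (m a U D z K : ℕ) (P : Finset ℕ) (Ω : ℕ → Finset ℕ), 1 ≤ m → 1 ≤ D →
  (∀ p ∈ P, p.Prime ∧ 64 ≤ p ∧ p ≤ z ∧ Nat.Coprime p m) →
  (∀ p ∈ P, (Ω p).card ≤ 2 ∧ ∀ x ∈ Ω p, x < p) → z ^ K ≤ D →
  8 * (∑ p ∈ P, ((Ω p).card : ℝ) / p) + 8 ≤ K → (∑ p ∈ P, (4 : ℝ) / p ^ 2) ≤ 1 →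
  (((range (U + 1)).filter (fun u => u % m = a % m ∧ ∀ p ∈ P, u % p ∉ Ω p)).card : ℝ) ≤
    16 * ((U : ℝ) / m + 1) * Real.exp (-∑ p ∈ P, ((Ω p).card : ℝ) / p) + (D : ℝ) ^ 6

open Classical in
/-- task FIX: the number of `u` for a fixed choice of the small primes -/
def FixStmt : Prop := ∀ (r δ s U D z K : ℕ) (A P : Finset ℕ), Adm δ → 1 ≤ D →
  (∀ q ∈ A, q.Prime ∧ 5 ≤ q) → (∀ p ∈ P, p.Prime ∧ 64 ≤ p ∧ p ≤ z ∧ p ∉ A) → z ^ K ≤ D →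
  8 * (∑ p ∈ P, ((Om r δ s p).card : ℝ) / p) + 8 ≤ K → (∑ p ∈ P, (4 : ℝ) / p ^ 2) ≤ 1 →
  (((range (U + 1)).filter (fun u => ∃ p : ℕ, p.Prime ∧ z < p ∧ p ∉ A ∧
      3 * ((∏ q ∈ A, q) * p) = δ * s ^ 2 + 4 ^ r * u ^ 2)).card : ℝ) ≤
    (∏ q ∈ A, (1 + J q δ)) * (16 * ((U : ℝ) / (∏ q ∈ A, (q : ℝ)) + 1) *
      Real.exp (-∑ p ∈ P, ((Om r δ s p).card : ℝ) / p) + (D : ℝ) ^ 6)

/-- task SIG: the sieving mass for a good kernel -/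
def SigStmt : Prop := ∃ C : ℝ, 0 < C ∧ ∀ (I i0 i1 r δ s : ℕ) (A : Finset ℕ), 3 ≤ i0 → i0 ≤ i1 →
  i1 ≤ I → I ≤ 2 ^ i0 → Adm δ → ¬ Bad I i0 δ → 1 ≤ s → s ≤ 2 ^ I → A.card ≤ I →
  (Real.log i1 - Real.log i0 - C ≤ ∑ p ∈ Pr2 i0 i1 \ A, ((Om r δ s p).card : ℝ) / p) ∧
  (∑ p ∈ Pr2 i0 i1 \ A, ((Om r δ s p).card : ℝ) / p ≤ 2 * Real.log I + C)

/-- task TUP: the prime factors of the number of a tuple -/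
def TupStmt : Prop := ∀ (M : ℕ) (g : Cfg M), g.Ok → ∀ t ∈ g.Tup, ∃ s : Finset ℕ,
  (∀ q ∈ s, q.Prime ∧ 5 ≤ q ∧ (q % 8 = 3 ∨ q % 8 = 5)) ∧ ∏ q ∈ s, q = g.N t ∧
  s.card = ∑ j, g.k j + g.R.card + 1 ∧
  (s.filter (fun q => q % 8 = 3)).card =
    (g.R.filter (fun q => q % 8 = 3)).card + (if g.c = 3 then 1 else 0) ∧
  g.R ⊆ s ∧ (∀ j, t.1 j ⊆ s) ∧ (∀ q ∈ s, q ∣ g.N t ∧ ¬ q ^ 2 ∣ g.N t) ∧ g.N t ≤ 2 ^ g.I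

/-- task T1: lower bound for the number of tuples -/
def TupLow : Prop := ∃ c0 : ℝ, 0 < c0 ∧ ∃ I0 : ℕ, ∀ (M : ℕ) (g : Cfg M), g.Ok → I0 ≤ g.I →
  (∀ j, 2 * (g.k j : ℝ) ^ 2 ≤ 2 ^ (g.κ j) * g.S j) →
  c0 * (2 ^ g.I / (g.Rp * g.I)) * (g.W / 2 ^ M) ≤ (g.Tup.card : ℝ)

open Classical in
/-- task T2: tuples represented by a large kernel -/
def TupLarge : Prop := ∀ (M : ℕ) (g : Cfg M), g.Ok → ∀ δ : ℕ, Adm δ →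
  ((g.Tup.filter (fun t => Rep g.r δ (g.N t))).card : ℝ) ≤
    Real.sqrt (3 * 2 ^ g.I / δ) * 2 ^ (∑ j, g.k j + g.R.card + 1) * (g.U / g.Rp) * g.W

open Classical in
/-- task T3: tuples represented by a small kernel that is not strongly biased -/
def TupSmall : Prop := ∃ C : ℝ, 0 < C ∧ ∀ (M : ℕ) (g : Cfg M), g.Ok → ∀ δ : ℕ, Adm δ →
  ∀ (j : Fin M) (θ : ℝ), 0 ≤ θ → θ ≤ 1 →
  ∑ q ∈ (g.Blk j).filter (fun q => J q δ ≠ -1), (1 : ℝ) / q ≤ (1 - θ) * g.S j →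
  ((g.Tup.filter (fun t => Rep g.r δ (g.N t))).card : ℝ) ≤
    C * (2 ^ g.I / (g.Rp * g.I)) * g.W * (1 - θ) ^ (g.k j)

open Classical in
/-- task T0: tuples that come from `n = 0` -/
def TupZero : Prop := ∀ (M : ℕ) (g : Cfg M), g.Ok →
  ((g.Tup.filter (fun t => ∃ u : ℕ, 3 * g.N t + 1 = 4 ^ g.r * u ^ 2)).card : ℝ) ≤
    2 ^ (g.I / 8) * (g.U + 2)

/-- task T5: multiplicity of a good value -/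
def GoodCount : Prop := ∃ C : ℝ, 0 < C ∧ ∃ I0 : ℕ, ∀ (M : ℕ) (g : Cfg M), g.Ok → I0 ≤ g.I →
  ∀ i0 : ℕ, 6 ≤ i0 → g.I ≤ 2 ^ i0 → 4000 * i0 * (Nat.log 2 g.I + 1) ≤ g.I →
  (∀ j, i0 ≤ g.κ j ∧ g.κ j ≤ g.I) → ∑ j, g.k j + g.R.card ≤ g.I →
  ∀ δ s : ℕ, Adm δ → ¬ Bad g.I i0 δ → 1 ≤ s → δ * s ^ 2 ≤ 3 * 2 ^ g.I →
  (((g.Tup ×ˢ range (2 ^ g.I + 1)).filter
      (fun x => 3 * g.N x.1 = δ * s ^ 2 + 4 ^ g.r * x.2 ^ 2)).card : ℝ) ≤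
    C * 2 ^ g.R.card * (g.U / g.Rp) *
      (∏ j, ((g.S j + 1 / (g.I : ℝ) ^ 2 + g.R.card / 2 ^ (g.κ j)) ^ g.k j /
        ((g.k j).factorial : ℝ))) * (i0 * (Nat.log 2 g.I + 1) / g.I)

open Classical in
/-- task F1: the large bad kernels -/
def BadSum : Prop := ∀ M : ℕ, 1 ≤ M → ∃ y0 : ℕ, ∀ y : ℕ, y0 ≤ y → ∀ I : ℕ,
  y ^ (2 * M + 4) ≤ I → I ≤ 2 * y ^ (2 * M + 4) →
  ∑ δ ∈ (Icc 1 (3 * 2 ^ I)).filter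
      (fun δ => Adm δ ∧ Bad I y δ ∧ 2 ^ (8 * y ^ (2 * M - 1)) < δ), 1 / Real.sqrt δ ≤
    1 / (2 : ℝ) ^ (2 * y ^ (2 * M - 1))

open Classical in
/-- task F2: the number of the small bad kernels -/
def BadNum : Prop := ∀ M : ℕ, 1 ≤ M → ∀ η : ℝ, 0 < η → ∃ y0 : ℕ, ∀ y : ℕ, y0 ≤ y → ∀ I : ℕ,
  y ^ (2 * M + 4) ≤ I → I ≤ 2 * y ^ (2 * M + 4) →
  (((Icc 1 (2 ^ (8 * y ^ (2 * M - 1)))).filter (fun δ => Adm δ ∧ Bad I y δ)).card : ℝ) ≤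
    (2 : ℝ) ^ (η * (y : ℝ) ^ (2 * M - 1)) ∧
  ∀ j : ℕ, j + 1 < M →
    (((Icc 1 (2 ^ (8 * y ^ (2 * M - 1)))).filter
      (fun δ => Adm δ ∧ BadAt I (kap M y (j + 1)) δ)).card : ℝ) ≤
    (2 : ℝ) ^ (η * (y : ℝ) ^ (2 * j + 1))

/-- task SB: a strongly biased kernel is bad -/
def StrongBad : Prop := ∃ C : ℕ, ∀ I i δ : ℕ, C ≤ i → i ≤ I → I ≤ 2 ^ (i / 4) → 1 ≤ δ →
  δ ≤ 2 ^ I → StrongAt i δ → BadAt I i δ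

/-- task PAR: the numerical facts on the main configuration -/
def ParStmt : Prop := ∀ M : ℕ, 1 ≤ M → ∃ y0 : ℕ, ∀ y : ℕ, y0 ≤ y → ∀ I : ℕ,
  y ^ (2 * M + 4) ≤ I → I ≤ 2 * y ^ (2 * M + 4) → ∀ (R : Finset ℕ) (c : ℕ), R.card ≤ 2 →
  (∀ q ∈ R, q.Prime ∧ 5 ≤ q ∧ (q % 8 = 3 ∨ q % 8 = 5)) → ∏ q ∈ R, q ≤ 2 ^ (I / 16) →
  (c = 3 ∨ c = 5) →
  (cfg M y I R c).Ok ∧
  ∑ j, (cfg M y I R c).k j + R.card + 1 = 2 ^ (rr M y - 1) - 1 ∧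
  2 ^ (rr M y - 1) ≤ y ^ (2 * M - 1) ∧ y ^ (2 * M - 1) < 2 ^ (rr M y) ∧
  (∀ j : Fin M, (y : ℝ) ^ (2 * (j : ℕ) + 1) / 4 ≤ (cfg M y I R c).k j ∧
    ((cfg M y I R c).k j : ℝ) ≤ (y : ℝ) ^ (2 * (j : ℕ) + 1)) ∧
  (∀ j : Fin M, 1 / (8 * (kap M y j : ℝ)) ≤ (cfg M y I R c).S j) ∧
  (∀ j : Fin M, y ≤ kap M y j ∧ kap M y j ≤ I) ∧
  (∀ j : Fin M, 2 * ((cfg M y I R c).k j : ℝ) ^ 2 ≤
    2 ^ (kap M y j) * (cfg M y I R c).S j) ∧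
  (∏ j, (((cfg M y I R c).S j + 1 / (I : ℝ) ^ 2 + R.card / 2 ^ (kap M y j)) ^
      (cfg M y I R c).k j / (((cfg M y I R c).k j).factorial : ℝ)) ≤
    Real.exp M * (cfg M y I R c).W) ∧
  1 / (2 : ℝ) ^ (I / 100) ≤ (cfg M y I R c).W

/-- the properties of the killing primes `R` and of the class `c` -/
structure RC (M y I : ℕ) (R : Finset ℕ) (c : ℕ) : Prop where
  card : R.card ≤ 2
  pr : ∀ q ∈ R, q.Prime ∧ 5 ≤ q ∧ (q % 8 = 3 ∨ q % 8 = 5)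
  le : ∏ q ∈ R, q ≤ 2 ^ (I / 16)
  cl : c = 3 ∨ c = 5
  par : (R.filter (fun q => q % 8 = 3)).card + (if c = 3 then 1 else 0) = 0 ∨
    (R.filter (fun q => q % 8 = 3)).card + (if c = 3 then 1 else 0) = 2
  kills : ∀ δ : ℕ, Adm δ → δ ≤ 2 ^ (8 * y ^ (2 * M - 1)) → StrongAt (kap M y 0) δ →
    ∃ q ∈ R, J q δ = -1

/-- task RCH: existence of the killing primes -/
def RChoice : Prop := ∀ M : ℕ, 1 ≤ M → ∃ y0 : ℕ, ∀ y : ℕ, y0 ≤ y → ∀ I : ℕ,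
  y ^ (2 * M + 4) ≤ I → I ≤ 2 * y ^ (2 * M + 4) → ∃ (R : Finset ℕ) (c : ℕ), RC M y I R c

open Classical in
/-- task BTOT: the tuples that are lost are at most half of all tuples -/
def BadTotal : Prop := ∀ M : ℕ, 1 ≤ M → ∃ y0 : ℕ, ∀ y : ℕ, y0 ≤ y → ∀ I : ℕ,
  y ^ (2 * M + 4) ≤ I → I ≤ 2 * y ^ (2 * M + 4) → ∀ (R : Finset ℕ) (c : ℕ), RC M y I R c →
  (((cfg M y I R c).Tup.filter (fun t => (∃ δ : ℕ, Adm δ ∧ Bad I y δ ∧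
      Rep (rr M y) δ ((cfg M y I R c).N t)) ∨
      ∃ u : ℕ, 3 * (cfg M y I R c).N t + 1 = 4 ^ (rr M y) * u ^ 2)).card : ℝ) ≤
    ((cfg M y I R c).Tup.card : ℝ) / 2

/-- the number of `n ≤ x` with an odd number of partitions -/
def oddCount (x : ℕ) : ℕ :=
  ((range (x + 1)).filter (fun n => Odd (Fintype.card (Nat.Partition n)))).card

/-- task MAIN: the main theorem in terms of the parameter `y` -/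
def MainY : Prop := ∀ M : ℕ, 1 ≤ M → ∃ y0 : ℕ, ∀ y : ℕ, y0 ≤ y → ∀ I : ℕ,
  y ^ (2 * M + 4) ≤ I → I ≤ 2 * y ^ (2 * M + 4) →
  Real.sqrt (2 ^ I) * (y : ℝ) ^ (2 * M - 3 : ℤ) ≤ (oddCount (2 ^ I) : ℝ)

/-- task FINAL -/
def FinalStmt : Prop := ∀ ε : ℝ, 0 < ε → ∃ x0 : ℝ, ∀ x : ℕ, x0 ≤ x →
  Real.sqrt x * Real.log x ^ (1 - ε) ≤ (oddCount x : ℝ)

end Pool.Agent.H307R2.OP
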